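import Pool.Agent.Helper40.FR.Main

/-!
# Almost all orbits of `(x, y) ↦ (⌊(x + y) / 2⌋, y - x)` are bounded

In the coordinate `z = y - 1/2 + τ x`, `τ = (-1 + √-7) / 2`, the map is the rotation by
`(3 + √-7) / 4` followed by a kick `± τ / 4`, the sign being given by the parity of `x + y`. The
first `k` parities are equidistributed on boxes of side larger than `2 ^ k`. So the mean of `‖z‖²`
along `k ≈ log N` consecutive points changes, in one step, by `O(N / √log N)` on average, and some
level set of this mean at height about `N²` is crossed by only `O(N / √log N)` points. Every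
unbounded orbit which meets the square of radius `N` crosses it. Distinct points on the
symmetry lines of the reversing involutions lie on distinct orbits or are periodic.
-/

set_option autoImplicit false

namespace Pool.Agent.Results.MP_c62cc9_an.AlmostAllOrbitsBounded

/-- The map of the problem. -/
def T (q : ℤ × ℤ) : ℤ × ℤ := (⌊((q.1 + q.2 : ℤ) : ℚ) / 2⌋, q.2 - q.1)

/-- The forward orbit of `p` is bounded. -/
def Bdd (p : ℤ × ℤ) : Prop := ∃ C : ℤ, ∀ n : ℕ, |(T^[n] p).1| ≤ C ∧ |(T^[n] p).2| ≤ C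

/-- The (two-sided) orbit of `p` under the bijection `T`. -/
def orbit (p : ℤ × ℤ) : Set (ℤ × ℤ) := {q | ∃ n : ℕ, T^[n] p = q ∨ T^[n] q = p}

/-- The square of radius `N`. -/
def square (N : ℕ) : Set (ℤ × ℤ) := {p | |p.1| ≤ N ∧ |p.2| ≤ N}

/-- For `N ≥ 2`, at least `N + 1` orbits meet the square of radius `N`, and at most
`1000 N / √(log N)` of them are unbounded; likewise, all but at most `1000 N / √(log N)` of the
points of the square on the lines `x = 0`, `y = 4x`, `y = 4x + 1` have bounded orbits. -/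
theorem result (N : ℕ) (hN : 2 ≤ N) :
    (({O : Set (ℤ × ℤ) | ∃ p ∈ square N, O = orbit p}).Finite ∧
      N + 1 ≤ ({O : Set (ℤ × ℤ) | ∃ p ∈ square N, O = orbit p}).ncard) ∧
    (({O : Set (ℤ × ℤ) | ∃ p ∈ square N, ¬ Bdd p ∧ O = orbit p}).ncard : ℝ) ≤
      1000 * N / Real.sqrt (Real.log N) ∧
    (({p : ℤ × ℤ | p ∈ square N ∧ (p.1 = 0 ∨ p.2 = 4 * p.1 ∨ p.2 = 4 * p.1 + 1) ∧
      ¬ Bdd p}).ncard : ℝ) ≤ 1000 * N / Real.sqrt (Real.log N) := by
  have hT : T = Pool.Agent.Helper40.FR.T := by
    funext q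
    unfold T Pool.Agent.Helper40.FR.T
    have h : ⌊((q.1 + q.2 : ℤ) : ℚ) / 2⌋ = (q.1 + q.2) / 2 := by
      have := Rat.floor_intCast_div_natCast (q.1 + q.2) 2
      exact_mod_cast this
    rw [h]
  have hB : Bdd = Pool.Agent.Helper40.FR.Bdd := by
    funext p
    unfold Bdd Pool.Agent.Helper40.FR.Bdd
    rw [hT]
  have hO : orbit = Pool.Agent.Helper40.FR.orb := by
    funext p
    unfold orbit Pool.Agent.Helper40.FR.orb
    rw [hT]
  rw [hB, hO]
  obtain ⟨D, hD, -, hle⟩ := Pool.Agent.Helper40.FR.exists_D N hN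
  have h1 := Pool.Agent.Helper40.FR.ncard_unb_le N D hD
  have h2 := Pool.Agent.Helper40.FR.ncard_sym_le N
  refine ⟨⟨Pool.Agent.Helper40.FR.all_finite N, Pool.Agent.Helper40.FR.le_ncard_all N⟩, ?_, ?_⟩
  · refine le_trans ?_ hle
    exact_mod_cast h1
  · refine le_trans ?_ hle
    exact_mod_cast h2.trans h1

end Pool.Agent.Results.MP_c62cc9_an.AlmostAllOrbitsBounded
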